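import Pool.Agent.Y576.LE.Sharp

/-!
# The least dimension of a Lie group with Lie exponent less than three is five

The definitions (`RealLieGroup`, `rank`, `IsSubmanifold`, `TripleProductProperty`,
`RealLieGroup.lieExponent`) are in `Pool.Agent.W964.LieExp.Defs`, the Heisenberg groups `Heis.lie n`
of dimension `2 n + 1` in `Pool.Agent.W964.LieExp.Heis`.
-/

set_option autoImplicit false

open Module
open Pool.Agent.W964.LieExp

namespace Pool.Agent.Results.MP_1ece31_lc.LeastDimensionFive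

theorem three_le (A : RealLieGroup) (hd : finrank ℝ A.E ≤ 4) : (3 : EReal) ≤ A.lieExponent := by
  apply le_sInf
  rintro w ⟨S, T, U, m₁, m₂, m₃, hS, hT, hU, h, hpos, rfl⟩
  have h1 := Pool.Agent.Y576.LE.dims A hS hT hU h
  have h2 : m₁ + m₂ + m₃ ≤ finrank ℝ A.E := by
    have hd1 : 1 ≤ finrank ℝ A.E := Module.finrank_pos
    omega
  have h2' : (m₁ : ℝ) + m₂ + m₃ ≤ finrank ℝ A.E := by exact_mod_cast h2
  have h3 : (rank A.E A.G : ℝ) ≤ finrank ℝ A.E := by
    exact_mod_cast Pool.Agent.Y576.LE.rank_le A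
  have h4 : (3 : ℝ) ≤ (rank A.E A.G : ℝ) /
      (((m₁ : ℝ) + m₂ + m₃) / 3 - ((finrank ℝ A.E : ℝ) - rank A.E A.G) / 2) := by
    rw [le_div_iff₀ hpos]
    linarith
  exact EReal.coe_le_coe_iff.2 h4

theorem finrank_heis : finrank ℝ (Heis.lie 2).E = 5 := by
  show finrank ℝ (HV 2) = 5
  rw [Module.finrank_prod, Module.finrank_prod]
  simp

/-- **There are Lie groups with Lie exponent less than three**: the Lie exponent of the Heisenberg
group of dimension `5` is `5 / 2`, and `5` is the least dimension of a Lie group with Lie exponent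
less than `3`. -/
theorem result :
    (Heis.lie 2).lieExponent = ((5 / 2 : ℝ) : EReal) ∧
    IsLeast {d : ℕ | ∃ A : RealLieGroup, finrank ℝ A.E = d ∧ A.lieExponent < 3} 5 := by
  have h1 : (Heis.lie 2).lieExponent = ((5 / 2 : ℝ) : EReal) := by
    rw [Pool.Agent.Y576.LE.lieExponent_heis 2 (by norm_num)]
    norm_num
  refine ⟨h1, ⟨Heis.lie 2, finrank_heis, ?_⟩, ?_⟩
  · rw [h1]
    have : ((5 / 2 : ℝ) : EReal) < ((3 : ℝ) : EReal) := EReal.coe_lt_coe_iff.2 (by norm_num)
    exact this
  · rintro d ⟨A, hd, hA⟩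
    by_contra hlt
    push Not at hlt
    exact absurd (lt_of_le_of_lt (three_le A (by omega)) hA) (lt_irrefl _)

end Pool.Agent.Results.MP_1ece31_lc.LeastDimensionFive
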